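import Mathlib

/-!
# gcd-sunflowers and sunflowers: definitions
-/

namespace Pool.Agent.Helper72.GcdSun

/-- The integers of `S` have the same pairwise gcd `d`, and each of them is `d` times an integer
coprime to `d`. -/
def IsGcdSunflower (S : Finset ℕ) : Prop :=
  ∃ d : ℕ, 0 < d ∧ (∀ a ∈ S, ∀ b ∈ S, a ≠ b → Nat.gcd a b = d) ∧
    ∀ a ∈ S, ∃ b : ℕ, a = d * b ∧ Nat.Coprime b d

/-- `A` is a set of positive integers with exactly `k` prime factors counted with multiplicity, no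
`r` of which form a gcd-sunflower. -/
def GcdFree (r k : ℕ) (A : Finset ℕ) : Prop :=
  (∀ a ∈ A, 0 < a ∧ a.primeFactorsList.length = k) ∧
    ¬ ∃ S : Finset ℕ, S ⊆ A ∧ S.card = r ∧ IsGcdSunflower S

/-- The sets of `G` have the same pairwise intersection. -/
def IsSunflower (G : Finset (Finset ℕ)) : Prop :=
  ∃ K : Finset ℕ, ∀ s ∈ G, ∀ t ∈ G, s ≠ t → s ∩ t = K

/-- `F` is a family of `k`-element sets, no `r` of which form a sunflower. -/
def SetFree (r k : ℕ) (F : Finset (Finset ℕ)) : Prop :=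
  (∀ s ∈ F, s.card = k) ∧ ¬ ∃ G : Finset (Finset ℕ), G ⊆ F ∧ G.card = r ∧ IsSunflower G

end Pool.Agent.Helper72.GcdSun
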