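import Pool.Agent.Helper72.GcdSun.Lym

/-!
# Subsets of an interval
-/

namespace Pool.Agent.Helper72.GcdSun

open Finset

theorem sum_inv (n : ℕ) : ∑ e ∈ range n, (1 / (((e + 1 : ℕ) : ℝ) * ((e + 1 : ℕ) + 1))) ≤ 1 := by
  have h : ∑ e ∈ range n, (1 / (((e + 1 : ℕ) : ℝ) * ((e + 1 : ℕ) + 1))) = 1 - 1 / ((n : ℝ) + 1) := by
    induction n with
    | zero => simp
    | succ n ih =>
      rw [sum_range_succ, ih]
      push_cast
      have h1 : (n : ℝ) + 1 ≠ 0 := by positivity
      have h2 : (n : ℝ) + 1 + 1 ≠ 0 := by positivity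
      field_simp
      ring
  rw [h]
  have : (0 : ℝ) ≤ 1 / ((n : ℝ) + 1) := by positivity
  linarith

theorem Rc_mono {r : ℕ} {s t : ℕ} (h : s ≤ t) : Rc r s ≤ Rc r t := by
  unfold Rc
  have h1 : Nat.log 2 s + 1 ≤ Nat.log 2 t + 1 := Nat.succ_le_succ (Nat.log_mono_right h)
  have h2 : ((Nat.log 2 s + 1 : ℕ) : ℝ) ≤ ((Nat.log 2 t + 1 : ℕ) : ℝ) := by exact_mod_cast h1
  exact mul_le_mul_of_nonneg_left h2 (by positivity)

theorem mul_succ_le_pow (v : ℕ) (hv : 1 ≤ v) : (v : ℝ) * (v + 1) ≤ 4 ^ v := by
  have h : ∀ v : ℕ, 1 ≤ v → v * (v + 1) ≤ 4 ^ v := by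
    intro v hv
    induction v, hv using Nat.le_induction with
    | base => norm_num
    | succ v hv ih =>
      rw [pow_succ]
      nlinarith
  exact_mod_cast h v hv

/-- The combinatorial bound for subsets of `[1, N]`. -/
theorem interval_bound {r : ℕ} (hr : 1 ≤ r) {N : ℕ} {A : Finset ℕ} (hA : Free r A)
    (hN : ∀ a ∈ A, a ≤ N) {y V : ℕ} (hy : 1 ≤ y) (hV : N < (y + 1) ^ (V + 1)) :
    (A.card : ℝ) ≤ 2 * ((2 * Rc r (Nat.log 2 N) * ((Nat.log 2 N : ℝ) + 1) ^ 2) ^ y *
      (8 * Rc r (Nat.log 2 N)) ^ V) := by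
  classical
  set m := Nat.log 2 N with hmdef
  set R := Rc r m with hR
  have hR1 : 1 ≤ R := one_le_Rc hr m
  have hRpos : 0 < R := lt_of_lt_of_le one_pos hR1
  set W : ℝ := (2 * R * ((m : ℝ) + 1) ^ 2) ^ y * (8 * R) ^ V with hW
  have hWpos : 0 < W := by positivity
  -- sizes
  have hlog : ∀ a ∈ A, ∀ j : ℕ, 2 ^ j ≤ a → j ≤ m := by
    intro a ha j hj
    exact Nat.le_log_of_pow_le (by norm_num) (hj.trans (hN a ha))
  have hpf : ∀ a ∈ A, ∏ p ∈ a.primeFactors, p ^ a.factorization p = a := by
    intro a ha
    have := Nat.prod_factorization_pow_eq_self (hA.1 a ha).ne'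
    rwa [Finsupp.prod, Nat.support_factorization] at this
  have hom : ∀ a ∈ A, a.primeFactors.card ≤ m := by
    intro a ha
    apply hlog a ha
    calc 2 ^ a.primeFactors.card = ∏ p ∈ a.primeFactors, 2 := by rw [prod_const]
      _ ≤ ∏ p ∈ a.primeFactors, p ^ a.factorization p := by
          refine prod_le_prod' fun p hp => ?_
          have h1 := (Nat.prime_of_mem_primeFactors hp).two_le
          have h2 := Nat.Prime.factorization_pos_of_dvd (Nat.prime_of_mem_primeFactors hp)
            (hA.1 a ha).ne' (Nat.dvd_of_mem_primeFactors hp)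
          exact h1.trans (Nat.le_self_pow h2.ne' p)
      _ = a := hpf a ha
  set w : ℕ → ℝ := fun e => 1 / ((e : ℝ) * (e + 1)) with hwdef
  have hw : ∀ e, 0 ≤ w e := fun e => by simp only [hwdef]; positivity
  have hw1 : ∀ n, ∑ e ∈ range n, w (e + 1) ≤ 1 := fun n => sum_inv n
  have key := lym hr hA hom w hw hw1 (fun t => (1 / (2 * R)) ^ t) (fun t => by positivity)
  have hrhs : ∑ t ∈ range (m + 1), (1 / (2 * R)) ^ t * Rc r t ^ t ≤ 2 := by
    have h1 : ∀ t ∈ range (m + 1), (1 / (2 * R)) ^ t * Rc r t ^ t ≤ (1 / 2 : ℝ) ^ t := by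
      intro t ht
      rw [← mul_pow]
      have h2 : Rc r t ≤ R := Rc_mono (Nat.lt_succ_iff.1 (mem_range.1 ht))
      have h3 : 0 < Rc r t := Rc_pos hr t
      apply pow_le_pow_left₀ (by positivity)
      rw [div_mul_eq_mul_div, one_mul, div_le_div_iff₀ (by positivity) (by norm_num)]
      linarith
    refine (sum_le_sum h1).trans ?_
    have h4 : ∀ n : ℕ, ∑ t ∈ range n, (1 / 2 : ℝ) ^ t = 2 - 2 * (1 / 2) ^ n := by
      intro n
      induction n with
      | zero => simp
      | succ n ih => rw [sum_range_succ, ih, pow_succ]; ring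
    rw [h4]
    have : (0 : ℝ) ≤ 2 * (1 / 2) ^ (m + 1) := by positivity
    linarith
  -- the weight of every element is at least `1 / W`
  have hlow : ∀ a ∈ A, 1 / W ≤ (1 / (2 * R)) ^ a.primeFactors.card * wt w a := by
    intro a ha
    have h1 : (1 / (2 * R)) ^ a.primeFactors.card * wt w a =
        1 / ∏ p ∈ a.primeFactors, (2 * R * ((a.factorization p : ℝ) * (a.factorization p + 1))) := by
      unfold wt
      rw [← prod_const, ← prod_mul_distrib, one_div (∏ p ∈ a.primeFactors, _), ← prod_inv_distrib]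
      refine prod_congr rfl fun p _ => ?_
      simp only [hwdef]
      rw [one_div, one_div, ← mul_inv]
    rw [h1]
    have hpos : ∀ p ∈ a.primeFactors,
        0 < 2 * R * ((a.factorization p : ℝ) * (a.factorization p + 1)) := by
      intro p hp
      have h2 := Nat.Prime.factorization_pos_of_dvd (Nat.prime_of_mem_primeFactors hp)
        (hA.1 a ha).ne' (Nat.dvd_of_mem_primeFactors hp)
      have h3 : (0 : ℝ) < a.factorization p := by exact_mod_cast h2
      positivity
    apply one_div_le_one_div_of_le (prod_pos hpos)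
    rw [← prod_filter_mul_prod_filter_not a.primeFactors (fun p => p ≤ y)]
    apply mul_le_mul
    · -- small primes
      have h2 : ∀ p ∈ a.primeFactors.filter (fun p => p ≤ y),
          2 * R * ((a.factorization p : ℝ) * (a.factorization p + 1)) ≤
            2 * R * ((m : ℝ) + 1) ^ 2 := by
        intro p hp
        have hp1 := (mem_filter.1 hp).1
        have h3 : a.factorization p ≤ m := by
          apply hlog a ha
          calc 2 ^ a.factorization p ≤ p ^ a.factorization p :=
                Nat.pow_le_pow_left (Nat.prime_of_mem_primeFactors hp1).two_le _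
            _ ≤ a := Nat.ordProj_le p (hA.1 a ha).ne'
        have h4 : (a.factorization p : ℝ) ≤ m := by exact_mod_cast h3
        have h5 : (0 : ℝ) ≤ a.factorization p := Nat.cast_nonneg _
        apply mul_le_mul_of_nonneg_left _ (by positivity)
        nlinarith
      refine (prod_le_prod (fun p hp => (hpos p (mem_filter.1 hp).1).le) h2).trans ?_
      rw [prod_const]
      apply pow_le_pow_right₀
      · have : (0 : ℝ) ≤ m := Nat.cast_nonneg _
        nlinarith [sq_nonneg (m : ℝ)]
      · have h6 : a.primeFactors.filter (fun p => p ≤ y) ⊆ Icc 1 y := by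
          intro p hp
          obtain ⟨hp1, hp2⟩ := mem_filter.1 hp
          exact mem_Icc.2 ⟨(Nat.prime_of_mem_primeFactors hp1).one_le, hp2⟩
        refine (card_le_card h6).trans ?_
        simp
    · -- large primes
      have h2 : ∀ p ∈ a.primeFactors.filter (fun p => ¬ p ≤ y),
          2 * R * ((a.factorization p : ℝ) * (a.factorization p + 1)) ≤
            (8 * R) ^ a.factorization p := by
        intro p hp
        have hp1 := (mem_filter.1 hp).1
        have h3 := Nat.Prime.factorization_pos_of_dvd (Nat.prime_of_mem_primeFactors hp1)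
          (hA.1 a ha).ne' (Nat.dvd_of_mem_primeFactors hp1)
        have h4 := mul_succ_le_pow (a.factorization p) h3
        have h5 : 2 * R ≤ (2 * R) ^ a.factorization p := le_self_pow₀ (by linarith) h3.ne'
        calc 2 * R * ((a.factorization p : ℝ) * (a.factorization p + 1))
            ≤ (2 * R) ^ a.factorization p * 4 ^ a.factorization p :=
              mul_le_mul h5 h4 (by positivity) (by positivity)
          _ = (8 * R) ^ a.factorization p := by rw [← mul_pow]; ring
      refine (prod_le_prod (fun p hp => (hpos p (mem_filter.1 hp).1).le) h2).trans ?_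
      rw [prod_pow_eq_pow_sum]
      apply pow_le_pow_right₀ (by linarith)
      have h7 : (y + 1) ^ (∑ p ∈ a.primeFactors.filter (fun p => ¬ p ≤ y), a.factorization p) ≤
          N := by
        calc (y + 1) ^ (∑ p ∈ a.primeFactors.filter (fun p => ¬ p ≤ y), a.factorization p)
            = ∏ p ∈ a.primeFactors.filter (fun p => ¬ p ≤ y), (y + 1) ^ a.factorization p := by
              rw [prod_pow_eq_pow_sum]
          _ ≤ ∏ p ∈ a.primeFactors.filter (fun p => ¬ p ≤ y), p ^ a.factorization p := by
              refine prod_le_prod' fun p hp => Nat.pow_le_pow_left ?_ _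
              have := (mem_filter.1 hp).2
              omega
          _ ≤ ∏ p ∈ a.primeFactors, p ^ a.factorization p := by
              refine prod_le_prod_of_subset_of_one_le' (filter_subset _ _) fun p hp _ => ?_
              exact Nat.one_le_pow _ _ (Nat.prime_of_mem_primeFactors hp).pos
          _ = a := hpf a ha
          _ ≤ N := hN a ha
      have h8 := lt_of_le_of_lt h7 hV
      have h9 := (Nat.pow_lt_pow_iff_right (show 1 < y + 1 by omega)).1 h8
      omega
    · exact prod_nonneg fun p hp => (hpos p (mem_filter.1 hp).1).le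
    · positivity
  have h1 : (A.card : ℝ) * (1 / W) ≤ 2 := by
    rw [← nsmul_eq_mul, ← sum_const]
    exact (sum_le_sum hlow).trans (key.trans hrhs)
  rw [mul_one_div, div_le_iff₀ hWpos] at h1
  exact h1

end Pool.Agent.Helper72.GcdSun
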