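import Pool.Agent.Helper72.GcdSun.Spread
import Pool.Agent.Helper72.GcdSun.Defs

/-!
# The sunflower bound
-/

namespace Pool.Agent.Helper72.GcdSun

open Finset
open scoped Classical

/-- The constant `32 r (⌊log₂ k⌋ + 1)`. -/
noncomputable def Rc (r k : ℕ) : ℝ := 32 * r * (Nat.log 2 k + 1 : ℕ)

theorem Rc_pos {r : ℕ} (hr : 1 ≤ r) (k : ℕ) : 0 < Rc r k := by
  unfold Rc
  have : (0 : ℝ) < r := by exact_mod_cast hr
  positivity

theorem one_le_Rc {r : ℕ} (hr : 1 ≤ r) (k : ℕ) : 1 ≤ Rc r k := by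
  unfold Rc
  have h1 : (1 : ℝ) ≤ r := by exact_mod_cast hr
  have h2 : (1 : ℝ) ≤ (Nat.log 2 k + 1 : ℕ) := by
    exact_mod_cast Nat.le_add_left 1 _
  nlinarith

/-- A family of `k`-sets with more than `(32 r (log₂ k + 1)) ^ k` members contains a sunflower with
`r` petals. -/
theorem sunflower_bound {r k : ℕ} (hr : 1 ≤ r) {F : Finset (Finset ℕ)} (hF : SetFree r k F) :
    (F.card : ℝ) ≤ Rc r k ^ k := by
  by_contra hbig
  push Not at hbig
  set R := Rc r k with hR
  have hRpos : 0 < R := Rc_pos hr k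
  set X0 : Finset ℕ := F.biUnion id with hX0
  have hX0' : ∀ s ∈ F, s ⊆ X0 := fun s hs => subset_biUnion_of_mem id hs
  set w : Finset ℕ → ℝ := fun Z => R ^ Z.card * ((F.filter fun s => Z ⊆ s).card : ℝ) with hw
  obtain ⟨Z, hZ, hmax⟩ := exists_max_image X0.powerset w ⟨∅, by simp⟩
  have h0 : w ∅ = F.card := by simp [hw]
  have hwZ : R ^ k < w Z := by
    have := hmax ∅ (by simp)
    rw [h0] at this
    exact hbig.trans_le this
  set FZ := F.filter fun s => Z ⊆ s with hFZ
  have hne : FZ.Nonempty := by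
    rw [nonempty_iff_ne_empty]
    intro h
    have : w Z = 0 := by simp only [hw]; rw [← hFZ, h]; simp
    rw [this] at hwZ
    exact absurd hwZ (not_lt.2 (by positivity))
  have hZk : Z.card < k := by
    obtain ⟨s, hs⟩ := hne
    obtain ⟨hs1, hs2⟩ := mem_filter.1 hs
    have h1 : Z.card ≤ k := by rw [← hF.1 s hs1]; exact card_le_card hs2
    refine lt_of_le_of_ne h1 fun h => ?_
    have h2 : FZ ⊆ {Z} := by
      intro t ht
      obtain ⟨ht1, ht2⟩ := mem_filter.1 ht
      rw [mem_singleton]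
      exact (eq_of_subset_of_card_le ht2 (by rw [hF.1 t ht1, h])).symm
    have h3 : w Z ≤ R ^ k := by
      simp only [hw]
      rw [← hFZ, h]
      have : (FZ.card : ℝ) ≤ 1 := by exact_mod_cast (card_le_card h2).trans (by simp)
      calc R ^ k * (FZ.card : ℝ) ≤ R ^ k * 1 := mul_le_mul_of_nonneg_left this (by positivity)
        _ = R ^ k := mul_one _
    exact absurd hwZ (not_lt.2 h3)
  -- the links
  obtain ⟨S, hSdef⟩ : ∃ S : {s // s ∈ FZ} → Finset {x // x ∈ X0},
      ∀ i, S i = (i.1 \ Z).subtype (fun x => x ∈ X0) := ⟨_, fun _ => rfl⟩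
  have hS : ∀ (i : {s // s ∈ FZ}) (x : {x // x ∈ X0}), x ∈ S i ↔ (x : ℕ) ∈ i.1 \ Z := by
    intro i x
    rw [hSdef, Finset.mem_subtype]
  have hScard : ∀ i, (S i).card ≤ k := by
    intro i
    rw [hSdef, Finset.card_subtype]
    refine (card_filter_le _ _).trans ((card_le_card sdiff_subset).trans ?_)
    exact (hF.1 i.1 (mem_filter.1 i.2).1).le
  have hcard : Fintype.card {s // s ∈ FZ} = FZ.card := Fintype.card_coe FZ
  have spread : ∀ T : Finset {x // x ∈ X0}, ((univ.filter fun i => T ⊆ S i).card : ℝ) *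
      (32 * r * (Nat.log 2 k + 1 : ℕ) : ℝ) ^ T.card ≤ Fintype.card {s // s ∈ FZ} := by
    intro T
    show ((univ.filter fun i => T ⊆ S i).card : ℝ) * R ^ T.card ≤ _
    rw [hcard]
    rcases (univ.filter fun i : {s // s ∈ FZ} => T ⊆ S i).eq_empty_or_nonempty with hemp | hex
    · rw [hemp]
      simp
    · set T' : Finset ℕ := T.map (Function.Embedding.subtype _) with hT'
      have hTT : ∀ i : {s // s ∈ FZ}, T ⊆ S i → T' ⊆ i.1 \ Z := by
        intro i hi x hx
        obtain ⟨y, hy, rfl⟩ := mem_map.1 hx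
        exact (hS i y).1 (hi hy)
      obtain ⟨i0, hi0⟩ := hex
      have hd : Disjoint Z T' := by
        rw [disjoint_right]
        intro x hx
        exact (mem_sdiff.1 (hTT i0 (mem_filter.1 hi0).2 hx)).2
      have hsub : Z ∪ T' ∈ X0.powerset := by
        rw [mem_powerset]
        refine union_subset (mem_powerset.1 hZ) ?_
        intro x hx
        exact hX0' _ (mem_filter.1 i0.2).1 (mem_sdiff.1 (hTT i0 (mem_filter.1 hi0).2 hx)).1
      have h1 := hmax _ hsub
      have h2 : (univ.filter fun i : {s // s ∈ FZ} => T ⊆ S i).card ≤ (F.filter fun s => Z ∪ T' ⊆ s).card := by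
        rw [← card_map (Function.Embedding.subtype (fun s => s ∈ FZ))]
        apply card_le_card
        intro s hs
        obtain ⟨i, hi, rfl⟩ := mem_map.1 hs
        have h3 := hTT i (mem_filter.1 hi).2
        refine mem_filter.2 ⟨(mem_filter.1 i.2).1, union_subset (mem_filter.1 i.2).2 ?_⟩
        exact h3.trans sdiff_subset
      have h4 : w (Z ∪ T') = R ^ Z.card * (R ^ T.card *
          ((F.filter fun s => Z ∪ T' ⊆ s).card : ℝ)) := by
        simp only [hw]
        rw [card_union_of_disjoint hd, pow_add, hT', card_map, mul_assoc]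
      rw [h4] at h1
      have h5 : R ^ T.card * ((F.filter fun s => Z ∪ T' ⊆ s).card : ℝ) ≤ (FZ.card : ℝ) :=
        le_of_mul_le_mul_left h1 (by positivity)
      have h6 : ((univ.filter fun i : {s // s ∈ FZ} => T ⊆ S i).card : ℝ) ≤
          ((F.filter fun s => Z ∪ T' ⊆ s).card : ℝ) := by exact_mod_cast h2
      rw [mul_comm]
      exact (mul_le_mul_of_nonneg_left h6 (by positivity)).trans h5
  obtain ⟨f, hf⟩ := spread_lemma (m := Nat.log 2 k + 1) S hScard
    (Nat.lt_pow_succ_log_self (by norm_num) k) (by rw [hcard]; exact card_pos.2 hne) hr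
    (fun T => by convert spread T)
  have hdisj : ∀ a b, a ≠ b → Disjoint ((f a).1 \ Z) ((f b).1 \ Z) := by
    intro a b hab
    rw [disjoint_left]
    intro x hx hy
    have hxX : x ∈ X0 := hX0' _ (mem_filter.1 (f a).2).1 (mem_sdiff.1 hx).1
    exact disjoint_left.1 (hf a b hab) ((hS (f a) ⟨x, hxX⟩).2 hx) ((hS (f b) ⟨x, hxX⟩).2 hy)
  have hlink : ∀ a, ((f a).1 \ Z).Nonempty := by
    intro a
    rw [← card_pos, card_sdiff_of_subset (mem_filter.1 (f a).2).2,
      hF.1 _ (mem_filter.1 (f a).2).1]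
    omega
  have hinj : Function.Injective fun a => (f a).1 := by
    intro a b hab
    by_contra hne
    have h1 := hdisj a b hne
    have hab' : (f a).1 = (f b).1 := hab
    rw [hab', disjoint_self_iff_empty] at h1
    exact (hlink b).ne_empty h1
  apply hF.2
  refine ⟨univ.image fun a => (f a).1, ?_, ?_, Z, ?_⟩
  · intro s hs
    obtain ⟨a, -, rfl⟩ := mem_image.1 hs
    exact (mem_filter.1 (f a).2).1
  · rw [card_image_of_injective _ hinj, card_univ, Fintype.card_fin]
  · intro s hs t ht hst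
    obtain ⟨a, -, rfl⟩ := mem_image.1 hs
    obtain ⟨b, -, rfl⟩ := mem_image.1 ht
    have hab : a ≠ b := by rintro rfl; exact hst rfl
    apply subset_antisymm
    · intro x hx
      by_contra hxZ
      obtain ⟨h1, h2⟩ := mem_inter.1 hx
      exact disjoint_left.1 (hdisj a b hab) (mem_sdiff.2 ⟨h1, hxZ⟩) (mem_sdiff.2 ⟨h2, hxZ⟩)
    · intro x hx
      exact mem_inter.2 ⟨(mem_filter.1 (f a).2).2 hx, (mem_filter.1 (f b).2).2 hx⟩

end Pool.Agent.Helper72.GcdSun
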