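import Pool.Agent.Helper72.GcdSun.Sets
import Pool.Agent.Helper72.GcdSun.Sunflower

/-!
# A LYM type inequality for gcd-sunflower-free sets
-/

namespace Pool.Agent.Helper72.GcdSun

open Finset

/-- `A` is a set of positive integers, no `r` of which form a gcd-sunflower. -/
def Free (r : ℕ) (A : Finset ℕ) : Prop :=
  (∀ a ∈ A, 0 < a) ∧ ¬ ∃ S : Finset ℕ, S ⊆ A ∧ S.card = r ∧ IsGcdSunflower S

/-- The weight `∏ w(v_p(a))` over the prime divisors `p` of `a`. -/
noncomputable def wt (w : ℕ → ℝ) (a : ℕ) : ℝ := ∏ p ∈ a.primeFactors, w (a.factorization p)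

theorem wt_nonneg {w : ℕ → ℝ} (hw : ∀ e, 0 ≤ w e) (a : ℕ) : 0 ≤ wt w a :=
  prod_nonneg fun _ _ => hw _

/-- Choice of the exponents, one prime after the other, general weights. -/
theorem exists_hom' (w : ℕ → ℝ) (hw : ∀ e, 0 ≤ w e) (hw1 : ∀ n, ∑ e ∈ range n, w (e + 1) ≤ 1)
    (P : Finset ℕ) : ∀ (A : Finset ℕ) (x : ℕ → ℝ), (∀ a, 0 ≤ x a) →
    ∃ A' ⊆ A, (∀ p ∈ P, ∃ e : ℕ, ∀ a ∈ A', a.factorization p = 0 ∨ a.factorization p = e) ∧
      ∑ a ∈ A, x a * ∏ p ∈ P, (if a.factorization p = 0 then 1 else w (a.factorization p)) ≤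
        ∑ a ∈ A', x a := by
  classical
  induction P using Finset.induction_on with
  | empty =>
    intro A x hx
    exact ⟨A, subset_rfl, by simp, by simp⟩
  | insert p P hp ih =>
    intro A x hx
    set u : ℕ → ℝ := fun v => if v = 0 then 1 else w v with hu
    have hu0 : ∀ v, 0 ≤ u v := by
      intro v
      simp only [hu]
      split_ifs
      · exact zero_le_one
      · exact hw v
    obtain ⟨A1, hA1, hom, hsum⟩ := ih A (fun a => x a * u (a.factorization p))
      (fun a => mul_nonneg (hx a) (hu0 _))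
    -- the exponents of `p`
    set n : ℕ := ∑ a ∈ A1, a.factorization p with hn
    have hle : ∀ a ∈ A1, a.factorization p ≤ n := fun a ha =>
      single_le_sum (f := fun a : ℕ => a.factorization p) (fun _ _ => Nat.zero_le _) ha
    set G : ℕ → ℝ := fun j => ∑ a ∈ A1.filter (fun a => a.factorization p = j), x a with hG
    obtain ⟨j0, hj0, hmax⟩ : ∃ j0 ∈ Finset.range (n + 1), ∀ j ∈ Finset.range (n + 1),
        (if j = 0 then 0 else G j) ≤ (if j0 = 0 then 0 else G j0) :=
      exists_max_image _ _ ⟨0, by simp⟩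
    have hGn : ∀ j, 0 ≤ G j := fun j => sum_nonneg fun a _ => hx a
    refine ⟨A1.filter (fun a => a.factorization p = 0 ∨ a.factorization p = j0),
      (filter_subset _ _).trans hA1, ?_, ?_⟩
    · intro q hq
      rcases mem_insert.1 hq with rfl | hq
      · exact ⟨j0, fun a ha => (mem_filter.1 ha).2⟩
      · obtain ⟨e, he⟩ := hom q hq
        exact ⟨e, fun a ha => he a (mem_filter.1 ha).1⟩
    · have h1 : ∑ a ∈ A, x a * ∏ q ∈ insert p P,
          (if a.factorization q = 0 then 1 else w (a.factorization q)) =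
          ∑ a ∈ A, x a * u (a.factorization p) *
            ∏ q ∈ P, (if a.factorization q = 0 then 1 else w (a.factorization q)) := by
        refine sum_congr rfl fun a _ => ?_
        rw [prod_insert hp]; ring
      rw [h1]
      refine hsum.trans ?_
      -- split according to the exponent of `p`
      have h2 : ∑ a ∈ A1, x a * u (a.factorization p) =
          ∑ j ∈ Finset.range (n + 1), u j * G j := by
        rw [← sum_fiberwise_of_maps_to (g := fun a : ℕ => a.factorization p)
          (t := Finset.range (n + 1)) (fun a ha => mem_range.2 (Nat.lt_succ_of_le (hle a ha)))]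
        refine sum_congr rfl fun j _ => ?_
        rw [hG, mul_sum]
        refine sum_congr rfl fun a ha => ?_
        rw [(mem_filter.1 ha).2, mul_comm]
      rw [h2, sum_range_succ']
      have hM : ∀ j ∈ Finset.range n, u (j + 1) * G (j + 1) ≤
          w (j + 1) * (if j0 = 0 then 0 else G j0) := by
        intro j hj
        have := hmax (j + 1) (by simp only [mem_range] at hj ⊢; omega)
        rw [if_neg (Nat.succ_ne_zero j)] at this
        simp only [hu, if_neg (Nat.succ_ne_zero j)]
        exact mul_le_mul_of_nonneg_left this (hw _)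
      have hM0 : 0 ≤ (if j0 = 0 then 0 else G j0) := by
        split_ifs
        · exact le_rfl
        · exact hGn _
      have h3 : ∑ j ∈ Finset.range n, u (j + 1) * G (j + 1) ≤
          (if j0 = 0 then 0 else G j0) := by
        refine (sum_le_sum hM).trans ?_
        rw [← sum_mul]
        exact mul_le_of_le_one_left hM0 (hw1 n)
      have h4 : (if j0 = 0 then 0 else G j0) + G 0 =
          ∑ a ∈ A1.filter (fun a => a.factorization p = 0 ∨ a.factorization p = j0), x a := by
        split_ifs with h0
        · subst h0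
          simp only [or_self, zero_add, hG]
        · rw [filter_or, sum_union, add_comm]
          rw [disjoint_filter]
          intro a _ ha hb
          exact h0 (hb.symm.trans ha)
      have hu00 : u 0 = 1 := by simp [hu]
      rw [hu00, one_mul, ← h4]
      linarith

theorem prod_eq_wt (w : ℕ → ℝ) {a : ℕ} (P : Finset ℕ) (hP : a.primeFactors ⊆ P) :
    ∏ p ∈ P, (if a.factorization p = 0 then 1 else w (a.factorization p)) = wt w a := by
  unfold wt
  rw [← prod_subset hP]
  · refine prod_congr rfl fun p hp => ?_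
    rw [if_neg]
    rw [← Nat.support_factorization] at hp
    exact Finsupp.mem_support_iff.1 hp
  · intro p _ hp
    rw [if_pos]
    exact Finsupp.notMem_support_iff.1 (by rwa [Nat.support_factorization])

/-- The inequality for a set with equal exponents. -/
theorem hom_le {r m : ℕ} (hr : 1 ≤ r) {A : Finset ℕ} (hA : Free r A)
    (hm : ∀ a ∈ A, a.primeFactors.card ≤ m) (x : ℕ → ℝ) (hx : ∀ t, 0 ≤ x t)
    (e : ℕ → ℕ) (hom : ∀ a ∈ A, ∀ p ∈ a.primeFactors, a.factorization p = e p) :
    ∑ a ∈ A, x a.primeFactors.card ≤ ∑ t ∈ range (m + 1), x t * Rc r t ^ t := by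
  classical
  -- the integer is determined by its support
  have hdet : ∀ a ∈ A, a = ∏ p ∈ a.primeFactors, p ^ e p := by
    intro a ha
    conv_lhs => rw [← Nat.prod_factorization_pow_eq_self (hA.1 a ha).ne']
    rw [Finsupp.prod, Nat.support_factorization]
    exact prod_congr rfl fun p hp => by rw [hom a ha p hp]
  have hinj : ∀ a ∈ A, ∀ b ∈ A, a.primeFactors = b.primeFactors → a = b := by
    intro a ha b hb h
    rw [hdet a ha, hdet b hb, h]
  have hgcd : ∀ a ∈ A, ∀ b ∈ A, Nat.gcd a b = ∏ p ∈ a.primeFactors ∩ b.primeFactors, p ^ e p := by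
    intro a ha b hb
    have ha0 := (hA.1 a ha).ne'
    have hb0 := (hA.1 b hb).ne'
    have hg0 : Nat.gcd a b ≠ 0 := Nat.gcd_ne_zero_left ha0
    conv_lhs => rw [← Nat.prod_factorization_pow_eq_self hg0]
    rw [Finsupp.prod, Nat.support_factorization, Nat.primeFactors_gcd ha0 hb0]
    refine prod_congr rfl fun p hp => ?_
    obtain ⟨h1, h2⟩ := mem_inter.1 hp
    rw [Nat.factorization_gcd ha0 hb0, Finsupp.inf_apply, hom a ha p h1, hom b hb p h2, min_self]
  have hcard : ∀ a ∈ A, a.primeFactors.card ∈ range (m + 1) := fun a ha =>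
    mem_range.2 (Nat.lt_succ_of_le (hm a ha))
  rw [← sum_fiberwise_of_maps_to hcard]
  refine sum_le_sum fun t _ => ?_
  set At := A.filter (fun a => a.primeFactors.card = t) with hAt
  have hsub : ∀ a ∈ At, a ∈ A := fun a ha => (mem_filter.1 ha).1
  have hc : (At.image Nat.primeFactors).card = At.card :=
    card_image_of_injOn fun a ha b hb h => hinj a (hsub a ha) b (hsub b hb) h
  have hconst : ∑ a ∈ At, x a.primeFactors.card = At.card * x t := by
    rw [← nsmul_eq_mul, ← sum_const]
    exact sum_congr rfl fun a ha => by rw [(mem_filter.1 ha).2]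
  rw [hconst, mul_comm]
  apply mul_le_mul_of_nonneg_left _ (hx t)
  rw [← hc]
  refine sunflower_bound hr ⟨?_, ?_⟩
  · intro s hs
    obtain ⟨a, ha, rfl⟩ := mem_image.1 hs
    exact (mem_filter.1 ha).2
  · rintro ⟨G, hG, hGr, K, hK⟩
    apply hA.2
    have hSimg : (At.filter (fun a => a.primeFactors ∈ G)).image Nat.primeFactors = G := by
      ext s
      constructor
      · intro hs
        obtain ⟨a, ha, rfl⟩ := mem_image.1 hs
        exact (mem_filter.1 ha).2
      · intro hs
        obtain ⟨a, ha, rfl⟩ := mem_image.1 (hG hs)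
        exact mem_image.2 ⟨a, mem_filter.2 ⟨ha, hs⟩, rfl⟩
    have hScard : (At.filter (fun a => a.primeFactors ∈ G)).card = r := by
      rw [← hGr]
      conv_rhs => rw [← hSimg]
      refine (card_image_of_injOn fun a ha b hb h => ?_).symm
      exact hinj a (hsub a (mem_filter.1 ha).1) b (hsub b (mem_filter.1 hb).1) h
    refine ⟨At.filter (fun a => a.primeFactors ∈ G),
      fun a ha => hsub a (mem_filter.1 ha).1, hScard, ?_⟩
    by_cases hr1 : r = 1
    · obtain ⟨a, ha⟩ := card_eq_one.1 (show (At.filter (fun a => a.primeFactors ∈ G)).card = 1 by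
        omega)
      rw [ha]
      refine ⟨1, one_pos, ?_, ?_⟩
      · intro y hy z hz hyz
        rw [mem_singleton] at hy hz
        exact absurd (hy.trans hz.symm) hyz
      · intro y _
        exact ⟨y, (one_mul y).symm, Nat.coprime_one_right y⟩
    · have hSA : ∀ a ∈ At.filter (fun a => a.primeFactors ∈ G), a ∈ A :=
        fun a ha => hsub a (mem_filter.1 ha).1
      have hne : ∀ a ∈ At.filter (fun a => a.primeFactors ∈ G),
          ∀ b ∈ At.filter (fun a => a.primeFactors ∈ G), a ≠ b →
            a.primeFactors ∩ b.primeFactors = K := by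
        intro a ha b hb hab
        exact hK _ (mem_filter.1 ha).2 _ (mem_filter.1 hb).2
          fun h => hab (hinj a (hSA a ha) b (hSA b hb) h)
      have hKsub : ∀ a ∈ At.filter (fun a => a.primeFactors ∈ G), K ⊆ a.primeFactors := by
        intro a ha
        obtain ⟨b, hb, hba⟩ := exists_mem_ne (show 1 <
          (At.filter (fun a => a.primeFactors ∈ G)).card by omega) a
        rw [← hne a ha b hb hba.symm]
        exact inter_subset_left
      have hKp : ∀ a ∈ At.filter (fun a => a.primeFactors ∈ G), ∀ p ∈ K, p.Prime :=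
        fun a ha p hp => Nat.prime_of_mem_primeFactors (hKsub a ha hp)
      refine ⟨∏ p ∈ K, p ^ e p, ?_, ?_, ?_⟩
      · obtain ⟨a, ha⟩ : (At.filter (fun a => a.primeFactors ∈ G)).Nonempty :=
          card_pos.1 (by omega)
        exact prod_pos fun p hp => pow_pos (hKp a ha p hp).pos _
      · intro a ha b hb hab
        rw [hgcd a (hSA a ha) b (hSA b hb), hne a ha b hb hab]
      · intro a ha
        refine ⟨∏ p ∈ a.primeFactors \ K, p ^ e p, ?_, ?_⟩
        · rw [mul_comm, prod_sdiff (hKsub a ha)]
          exact hdet a (hSA a ha)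
        · refine Nat.Coprime.prod_left fun p hp => Nat.Coprime.prod_right fun q hq => ?_
          obtain ⟨hp1, hp2⟩ := mem_sdiff.1 hp
          refine Nat.Coprime.pow _ _ ((Nat.coprime_primes (Nat.prime_of_mem_primeFactors hp1)
            (hKp a ha q hq)).2 ?_)
          rintro rfl
          exact hp2 hq

/-- **LYM type inequality** for gcd-sunflower-free sets. -/
theorem lym {r m : ℕ} (hr : 1 ≤ r) {A : Finset ℕ} (hA : Free r A)
    (hm : ∀ a ∈ A, a.primeFactors.card ≤ m) (w : ℕ → ℝ) (hw : ∀ e, 0 ≤ w e)
    (hw1 : ∀ n, ∑ e ∈ range n, w (e + 1) ≤ 1) (x : ℕ → ℝ) (hx : ∀ t, 0 ≤ x t) :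
    ∑ a ∈ A, x a.primeFactors.card * wt w a ≤ ∑ t ∈ range (m + 1), x t * Rc r t ^ t := by
  classical
  set P : Finset ℕ := A.biUnion Nat.primeFactors with hP
  obtain ⟨A', hA', hom, hsum⟩ := exists_hom' w hw hw1 P A (fun a => x a.primeFactors.card)
    (fun a => hx _)
  have h1 : ∑ a ∈ A, x a.primeFactors.card *
      ∏ p ∈ P, (if a.factorization p = 0 then 1 else w (a.factorization p)) =
      ∑ a ∈ A, x a.primeFactors.card * wt w a :=
    sum_congr rfl fun a ha => by rw [prod_eq_wt w P (subset_biUnion_of_mem _ ha)]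
  rw [h1] at hsum
  have hfree : Free r A' := by
    refine ⟨fun a ha => hA.1 a (hA' ha), ?_⟩
    rintro ⟨S, hS, h⟩
    exact hA.2 ⟨S, hS.trans hA', h⟩
  choose! e he using hom
  refine hsum.trans (hom_le hr hfree (fun a ha => hm a (hA' ha)) x hx e ?_)
  intro a ha p hp
  have hpP : p ∈ P := mem_biUnion.2 ⟨a, hA' ha, hp⟩
  rcases he p hpP a ha with h | h
  · have := Nat.Prime.factorization_pos_of_dvd (Nat.prime_of_mem_primeFactors hp)
      (hA.1 a (hA' ha)).ne' (Nat.dvd_of_mem_primeFactors hp)
    omega
  · exact h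

end Pool.Agent.Helper72.GcdSun
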