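import Pool.Agent.Helper72.GcdSun.Defs

/-!
# gcd-sunflowers versus sunflowers
-/

namespace Pool.Agent.Helper72.GcdSun

open Finset

/-! ### From integers to sets -/

/-- Choice of the exponents, one prime after the other. -/
theorem exists_hom (P : Finset ℕ) : ∀ (A : Finset ℕ) (x : ℕ → ℝ), (∀ a, 0 ≤ x a) →
    ∃ A' ⊆ A, (∀ p ∈ P, ∃ e : ℕ, ∀ a ∈ A', a.factorization p = 0 ∨ a.factorization p = e) ∧
      ∑ a ∈ A, x a * ∏ p ∈ P, (1 / 2 : ℝ) ^ a.factorization p ≤ ∑ a ∈ A', x a := by
  classical
  induction P using Finset.induction_on with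
  | empty =>
    intro A x hx
    exact ⟨A, subset_rfl, by simp, by simp⟩
  | insert p P hp ih =>
    intro A x hx
    obtain ⟨A1, hA1, hom, hsum⟩ := ih A (fun a => x a * (1 / 2 : ℝ) ^ a.factorization p)
      (fun a => mul_nonneg (hx a) (by positivity))
    -- the exponents of `p`
    set n : ℕ := ∑ a ∈ A1, a.factorization p with hn
    have hle : ∀ a ∈ A1, a.factorization p ≤ n := fun a ha =>
      single_le_sum (f := fun a : ℕ => a.factorization p) (fun _ _ => Nat.zero_le _) ha
    set G : ℕ → ℝ := fun j => ∑ a ∈ A1.filter (fun a => a.factorization p = j), x a with hG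
    obtain ⟨j0, hj0, hmax⟩ : ∃ j0 ∈ Finset.range (n + 1), ∀ j ∈ Finset.range (n + 1),
        (if j = 0 then 0 else G j) ≤ (if j0 = 0 then 0 else G j0) :=
      exists_max_image _ _ ⟨0, by simp⟩
    have hGn : ∀ j, 0 ≤ G j := fun j => sum_nonneg fun a _ => hx a
    refine ⟨A1.filter (fun a => a.factorization p = 0 ∨ a.factorization p = j0),
      (filter_subset _ _).trans hA1, ?_, ?_⟩
    · intro q hq
      rcases mem_insert.1 hq with rfl | hq
      · exact ⟨j0, fun a ha => (mem_filter.1 ha).2⟩
      · obtain ⟨e, he⟩ := hom q hq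
        exact ⟨e, fun a ha => he a (mem_filter.1 ha).1⟩
    · have h1 : ∑ a ∈ A, x a * ∏ q ∈ insert p P, (1 / 2 : ℝ) ^ a.factorization q =
          ∑ a ∈ A, x a * (1 / 2 : ℝ) ^ a.factorization p *
            ∏ q ∈ P, (1 / 2 : ℝ) ^ a.factorization q := by
        refine sum_congr rfl fun a _ => ?_
        rw [prod_insert hp]; ring
      rw [h1]
      refine hsum.trans ?_
      -- split according to the exponent of `p`
      have h2 : ∑ a ∈ A1, x a * (1 / 2 : ℝ) ^ a.factorization p =
          ∑ j ∈ Finset.range (n + 1), (1 / 2 : ℝ) ^ j * G j := by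
        rw [← sum_fiberwise_of_maps_to (g := fun a : ℕ => a.factorization p)
          (t := Finset.range (n + 1)) (fun a ha => mem_range.2 (Nat.lt_succ_of_le (hle a ha)))]
        refine sum_congr rfl fun j _ => ?_
        rw [hG, mul_sum]
        refine sum_congr rfl fun a ha => ?_
        rw [(mem_filter.1 ha).2, mul_comm]
      rw [h2, sum_range_succ']
      have hM : ∀ j ∈ Finset.range n, (1 / 2 : ℝ) ^ (j + 1) * G (j + 1) ≤
          (1 / 2 : ℝ) ^ (j + 1) * (if j0 = 0 then 0 else G j0) := by
        intro j hj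
        have := hmax (j + 1) (by simp only [mem_range] at hj ⊢; omega)
        rw [if_neg (Nat.succ_ne_zero j)] at this
        exact mul_le_mul_of_nonneg_left this (by positivity)
      have hM0 : 0 ≤ (if j0 = 0 then 0 else G j0) := by
        split_ifs
        · exact le_rfl
        · exact hGn _
      have hgeo : ∑ j ∈ Finset.range n, (1 / 2 : ℝ) ^ (j + 1) ≤ 1 := by
        have : ∑ j ∈ Finset.range n, (1 / 2 : ℝ) ^ (j + 1) = 1 - (1 / 2 : ℝ) ^ n := by
          induction n with
          | zero => simp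
          | succ m ihm => rw [sum_range_succ, ihm]; ring
        rw [this]
        have : (0 : ℝ) ≤ (1 / 2 : ℝ) ^ n := by positivity
        linarith
      have h3 : ∑ j ∈ Finset.range n, (1 / 2 : ℝ) ^ (j + 1) * G (j + 1) ≤
          (if j0 = 0 then 0 else G j0) := by
        refine (sum_le_sum hM).trans ?_
        rw [← sum_mul]
        exact mul_le_of_le_one_left hM0 hgeo
      have h4 : (if j0 = 0 then 0 else G j0) + G 0 =
          ∑ a ∈ A1.filter (fun a => a.factorization p = 0 ∨ a.factorization p = j0), x a := by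
        split_ifs with h0
        · subst h0
          simp only [or_self, zero_add, hG]
        · rw [filter_or, sum_union, add_comm]
          rw [disjoint_filter]
          intro a _ ha hb
          exact h0 (hb.symm.trans ha)
      rw [pow_zero, one_mul, ← h4]
      linarith

theorem prod_half_pow {a k : ℕ} (hk : a.primeFactorsList.length = k) (P : Finset ℕ)
    (hP : a.primeFactors ⊆ P) :
    ∏ p ∈ P, (1 / 2 : ℝ) ^ a.factorization p = (1 / 2 : ℝ) ^ k := by
  rw [prod_pow_eq_pow_sum]
  congr 1
  rw [← hk]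
  have h1 : ∑ p ∈ P, a.factorization p = ∑ p ∈ a.primeFactors, a.factorization p := by
    refine (sum_subset hP fun p _ hp => ?_).symm
    exact Finsupp.notMem_support_iff.1 (by rwa [Nat.support_factorization])
  rw [h1]
  have h2 := ArithmeticFunction.cardFactors_eq_sum_factorization (n := a)
  rw [ArithmeticFunction.cardFactors_apply] at h2
  rw [h2, Finsupp.sum, Nat.support_factorization]

/-- A set of integers with equal exponents is bounded by the number of supports. -/
theorem card_hom_le {r k : ℕ} {A : Finset ℕ} (hA : GcdFree r k A) {B : ℕ → ℝ}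
    (hB : ∀ t ≤ k, ∀ F : Finset (Finset ℕ), SetFree r t F → (F.card : ℝ) ≤ B t)
    (e : ℕ → ℕ) (hom : ∀ a ∈ A, ∀ p ∈ a.primeFactors, a.factorization p = e p) :
    (A.card : ℝ) ≤ ∑ t ∈ range (k + 1), B t := by
  classical
  -- the integer is determined by its support
  have hdet : ∀ a ∈ A, a = ∏ p ∈ a.primeFactors, p ^ e p := by
    intro a ha
    conv_lhs => rw [← Nat.prod_factorization_pow_eq_self (hA.1 a ha).1.ne']
    rw [Finsupp.prod, Nat.support_factorization]
    exact prod_congr rfl fun p hp => by rw [hom a ha p hp]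
  have hinj : ∀ a ∈ A, ∀ b ∈ A, a.primeFactors = b.primeFactors → a = b := by
    intro a ha b hb h
    rw [hdet a ha, hdet b hb, h]
  have hgcd : ∀ a ∈ A, ∀ b ∈ A, Nat.gcd a b = ∏ p ∈ a.primeFactors ∩ b.primeFactors, p ^ e p := by
    intro a ha b hb
    have ha0 := (hA.1 a ha).1.ne'
    have hb0 := (hA.1 b hb).1.ne'
    have hg0 : Nat.gcd a b ≠ 0 := Nat.gcd_ne_zero_left ha0
    conv_lhs => rw [← Nat.prod_factorization_pow_eq_self hg0]
    rw [Finsupp.prod, Nat.support_factorization, Nat.primeFactors_gcd ha0 hb0]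
    refine prod_congr rfl fun p hp => ?_
    obtain ⟨h1, h2⟩ := mem_inter.1 hp
    rw [Nat.factorization_gcd ha0 hb0, Finsupp.inf_apply, hom a ha p h1, hom b hb p h2, min_self]
  have hcard : ∀ a ∈ A, a.primeFactors.card ∈ range (k + 1) := by
    intro a ha
    rw [mem_range, Nat.lt_succ_iff, ← (hA.1 a ha).2]
    exact List.toFinset_card_le _
  have hsplit : A.card = ∑ t ∈ range (k + 1), (A.filter (fun a => a.primeFactors.card = t)).card :=
    card_eq_sum_card_fiberwise hcard
  rw [hsplit, Nat.cast_sum]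
  refine sum_le_sum fun t ht => ?_
  set At := A.filter (fun a => a.primeFactors.card = t) with hAt
  have hsub : ∀ a ∈ At, a ∈ A := fun a ha => (mem_filter.1 ha).1
  have hc : (At.image Nat.primeFactors).card = At.card :=
    card_image_of_injOn fun a ha b hb h => hinj a (hsub a ha) b (hsub b hb) h
  rw [← hc]
  refine hB t (Nat.lt_succ_iff.1 (mem_range.1 ht)) _ ⟨?_, ?_⟩
  · intro s hs
    obtain ⟨a, ha, rfl⟩ := mem_image.1 hs
    exact (mem_filter.1 ha).2
  · rintro ⟨G, hG, hGr, K, hK⟩
    apply hA.2
    have hSimg : (At.filter (fun a => a.primeFactors ∈ G)).image Nat.primeFactors = G := by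
      ext s
      constructor
      · intro hs
        obtain ⟨a, ha, rfl⟩ := mem_image.1 hs
        exact (mem_filter.1 ha).2
      · intro hs
        obtain ⟨a, ha, rfl⟩ := mem_image.1 (hG hs)
        exact mem_image.2 ⟨a, mem_filter.2 ⟨ha, hs⟩, rfl⟩
    have hScard : (At.filter (fun a => a.primeFactors ∈ G)).card = r := by
      rw [← hGr]
      conv_rhs => rw [← hSimg]
      refine (card_image_of_injOn fun a ha b hb h => ?_).symm
      exact hinj a (hsub a (mem_filter.1 ha).1) b (hsub b (mem_filter.1 hb).1) h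
    refine ⟨At.filter (fun a => a.primeFactors ∈ G),
      fun a ha => hsub a (mem_filter.1 ha).1, hScard, ?_⟩
    by_cases hr : r ≤ 1
    · -- at most one element
      rcases Nat.lt_or_ge r 1 with h0 | h1
      · have : At.filter (fun a => a.primeFactors ∈ G) = ∅ := card_eq_zero.1 (by omega)
        rw [this]
        exact ⟨1, one_pos, by simp, by simp⟩
      · obtain ⟨a, ha⟩ := card_eq_one.1 (show (At.filter (fun a => a.primeFactors ∈ G)).card = 1 by
          omega)
        rw [ha]
        refine ⟨1, one_pos, ?_, ?_⟩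
        · intro x hx y hy hxy
          rw [mem_singleton] at hx hy
          exact absurd (hx.trans hy.symm) hxy
        · intro x _
          exact ⟨x, (one_mul x).symm, Nat.coprime_one_right x⟩
    · have hSA : ∀ a ∈ At.filter (fun a => a.primeFactors ∈ G), a ∈ A :=
        fun a ha => hsub a (mem_filter.1 ha).1
      have hne : ∀ a ∈ At.filter (fun a => a.primeFactors ∈ G),
          ∀ b ∈ At.filter (fun a => a.primeFactors ∈ G), a ≠ b →
            a.primeFactors ∩ b.primeFactors = K := by
        intro a ha b hb hab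
        exact hK _ (mem_filter.1 ha).2 _ (mem_filter.1 hb).2
          fun h => hab (hinj a (hSA a ha) b (hSA b hb) h)
      have hKsub : ∀ a ∈ At.filter (fun a => a.primeFactors ∈ G), K ⊆ a.primeFactors := by
        intro a ha
        obtain ⟨b, hb, hba⟩ := exists_mem_ne (show 1 <
          (At.filter (fun a => a.primeFactors ∈ G)).card by omega) a
        rw [← hne a ha b hb hba.symm]
        exact inter_subset_left
      have hKp : ∀ a ∈ At.filter (fun a => a.primeFactors ∈ G), ∀ p ∈ K, p.Prime :=
        fun a ha p hp => Nat.prime_of_mem_primeFactors (hKsub a ha hp)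
      refine ⟨∏ p ∈ K, p ^ e p, ?_, ?_, ?_⟩
      · obtain ⟨a, ha⟩ : (At.filter (fun a => a.primeFactors ∈ G)).Nonempty :=
          card_pos.1 (by omega)
        exact prod_pos fun p hp => pow_pos (hKp a ha p hp).pos _
      · intro a ha b hb hab
        rw [hgcd a (hSA a ha) b (hSA b hb), hne a ha b hb hab]
      · intro a ha
        refine ⟨∏ p ∈ a.primeFactors \ K, p ^ e p, ?_, ?_⟩
        · rw [mul_comm, prod_sdiff (hKsub a ha)]
          exact hdet a (hSA a ha)
        · refine Nat.Coprime.prod_left fun p hp => Nat.Coprime.prod_right fun q hq => ?_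
          obtain ⟨hp1, hp2⟩ := mem_sdiff.1 hp
          refine Nat.Coprime.pow _ _ ((Nat.coprime_primes (Nat.prime_of_mem_primeFactors hp1)
            (hKp a ha q hq)).2 ?_)
          rintro rfl
          exact hp2 hq

/-- Integers are bounded by sets, with a loss of `2 ^ k`. -/
theorem card_le_of_sets {r k : ℕ} {A : Finset ℕ} (hA : GcdFree r k A) {B : ℕ → ℝ}
    (hB : ∀ t ≤ k, ∀ F : Finset (Finset ℕ), SetFree r t F → (F.card : ℝ) ≤ B t) :
    (A.card : ℝ) ≤ 2 ^ k * ∑ t ∈ range (k + 1), B t := by
  classical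
  set P : Finset ℕ := A.biUnion Nat.primeFactors with hP
  obtain ⟨A', hA', hom, hsum⟩ := exists_hom P A (fun _ => 1) (fun _ => zero_le_one)
  have h1 : ∑ a ∈ A, (1 : ℝ) * ∏ p ∈ P, (1 / 2 : ℝ) ^ a.factorization p =
      A.card * (1 / 2 : ℝ) ^ k := by
    rw [← nsmul_eq_mul, ← sum_const]
    refine sum_congr rfl fun a ha => ?_
    rw [one_mul, prod_half_pow (hA.1 a ha).2 P (subset_biUnion_of_mem _ ha)]
  rw [h1, sum_const, nsmul_eq_mul, mul_one] at hsum
  have hfree : GcdFree r k A' := by
    refine ⟨fun a ha => hA.1 a (hA' ha), ?_⟩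
    rintro ⟨S, hS, h⟩
    exact hA.2 ⟨S, hS.trans hA', h⟩
  choose! e he using hom
  have h2 := card_hom_le hfree hB e (by
    intro a ha p hp
    have hpP : p ∈ P := mem_biUnion.2 ⟨a, hA' ha, hp⟩
    rcases he p hpP a ha with h | h
    · have := Nat.Prime.factorization_pos_of_dvd (Nat.prime_of_mem_primeFactors hp)
        (hA.1 a (hA' ha)).1.ne' (Nat.dvd_of_mem_primeFactors hp)
      omega
    · exact h)
  have h3 : (A.card : ℝ) * (1 / 2 : ℝ) ^ k ≤ ∑ t ∈ range (k + 1), B t := hsum.trans h2
  have h4 : (2 : ℝ) ^ k * ((A.card : ℝ) * (1 / 2 : ℝ) ^ k) = A.card := by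
    rw [mul_left_comm, ← mul_pow]; norm_num
  rw [← h4]
  exact mul_le_mul_of_nonneg_left h3 (by positivity)

end Pool.Agent.Helper72.GcdSun
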