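import Pool.Agent.Helper72.GcdSun.Main

/-!
# From sets to integers, padding, and the equivalence
-/

namespace Pool.Agent.Helper72.GcdSun

open Finset

/-- The product of the primes with indices in `s`. -/
noncomputable def toInt (s : Finset ℕ) : ℕ := ∏ p ∈ s.image (Nat.nth Nat.Prime), p

theorem nth_inj : Function.Injective (Nat.nth Nat.Prime) :=
  Nat.nth_injective Nat.infinite_setOfPred_prime

theorem primeFactors_toInt (s : Finset ℕ) :
    (toInt s).primeFactors = s.image (Nat.nth Nat.Prime) := by
  refine Nat.primeFactors_prod fun p hp => ?_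
  obtain ⟨i, -, rfl⟩ := mem_image.1 hp
  exact Nat.prime_nth_prime i

theorem toInt_pos (s : Finset ℕ) : 0 < toInt s := by
  refine prod_pos fun p hp => ?_
  obtain ⟨i, -, rfl⟩ := mem_image.1 hp
  exact (Nat.prime_nth_prime i).pos

theorem toInt_inj : Function.Injective toInt := by
  intro s t h
  have h1 := congrArg Nat.primeFactors h
  rw [primeFactors_toInt, primeFactors_toInt] at h1
  exact image_injective nth_inj h1

theorem squarefree_toInt (s : Finset ℕ) : Squarefree (toInt s) := by
  classical
  unfold toInt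
  have hp : ∀ p ∈ s.image (Nat.nth Nat.Prime), p.Prime := by
    intro p hp
    obtain ⟨i, -, rfl⟩ := mem_image.1 hp
    exact Nat.prime_nth_prime i
  revert hp
  generalize s.image (Nat.nth Nat.Prime) = P
  induction P using Finset.induction_on with
  | empty => intro _; simp
  | insert q P hq ih =>
    intro hp
    rw [prod_insert hq, Nat.squarefree_mul_iff]
    refine ⟨Nat.Coprime.prod_right fun p hpP => ?_, (hp q (mem_insert_self _ _)).squarefree,
      ih fun p hpP => hp p (mem_insert_of_mem hpP)⟩
    refine (Nat.coprime_primes (hp q (mem_insert_self _ _)) (hp p (mem_insert_of_mem hpP))).2 ?_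
    rintro rfl
    exact hq hpP

theorem length_toInt (s : Finset ℕ) : (toInt s).primeFactorsList.length = s.card := by
  have h1 : (toInt s).primeFactorsList.Nodup :=
    (Nat.squarefree_iff_nodup_primeFactorsList (toInt_pos s).ne').1 (squarefree_toInt s)
  rw [← List.toFinset_card_of_nodup h1]
  show (toInt s).primeFactors.card = _
  rw [primeFactors_toInt, card_image_of_injective _ nth_inj]

/-- A sunflower-free family of sets gives a gcd-sunflower-free set of squarefree integers. -/
theorem gcdFree_image {r k : ℕ} {F : Finset (Finset ℕ)} (hF : SetFree r k F) :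
    GcdFree r k (F.image toInt) := by
  classical
  refine ⟨?_, ?_⟩
  · intro a ha
    obtain ⟨s, hs, rfl⟩ := mem_image.1 ha
    exact ⟨toInt_pos s, by rw [length_toInt, hF.1 s hs]⟩
  · rintro ⟨S, hS, hSr, d, -, hd, -⟩
    apply hF.2
    refine ⟨F.filter (fun s => toInt s ∈ S), filter_subset _ _, ?_,
      d.primeFactors.preimage (Nat.nth Nat.Prime) nth_inj.injOn, ?_⟩
    · rw [← hSr, ← card_image_of_injective _ toInt_inj]
      congr 1
      ext a
      constructor
      · intro ha
        obtain ⟨s, hs, rfl⟩ := mem_image.1 ha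
        exact (mem_filter.1 hs).2
      · intro ha
        obtain ⟨s, hs, rfl⟩ := mem_image.1 (hS ha)
        exact mem_image.2 ⟨s, mem_filter.2 ⟨hs, ha⟩, rfl⟩
    · intro s hs t ht hst
      have h1 := hd _ (mem_filter.1 hs).2 _ (mem_filter.1 ht).2 fun h => hst (toInt_inj h)
      have h2 : d.primeFactors = (s ∩ t).image (Nat.nth Nat.Prime) := by
        rw [← h1, Nat.primeFactors_gcd (toInt_pos s).ne' (toInt_pos t).ne', primeFactors_toInt,
          primeFactors_toInt, image_inter _ _ nth_inj]
      ext i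
      rw [mem_preimage, h2, mem_image]
      constructor
      · intro hi
        exact ⟨i, hi, rfl⟩
      · rintro ⟨j, hj, hji⟩
        rwa [← nth_inj hji]

/-- Padding: enlarge the sets of a family by new elements, different for different sets. -/
noncomputable def pad (m : ℕ) (s : Finset ℕ) : Finset ℕ :=
  s.image (fun i => 2 * i) ∪ (range m).image (fun i => 2 * Nat.pair (Encodable.encode s) i + 1)

theorem pad_card (m : ℕ) (s : Finset ℕ) : (pad m s).card = s.card + m := by
  classical
  unfold pad
  rw [card_union_of_disjoint, card_image_of_injective, card_image_of_injective, card_range]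
  · intro i j h
    have h1 : Nat.pair (Encodable.encode s) i = Nat.pair (Encodable.encode s) j := by
      simp only at h; omega
    exact (Nat.pair_eq_pair.1 h1).2
  · intro i j h
    simp only at h; omega
  · rw [disjoint_left]
    intro x hx hy
    obtain ⟨i, -, rfl⟩ := mem_image.1 hx
    obtain ⟨j, -, hj⟩ := mem_image.1 hy
    omega

theorem mem_pad_even {m : ℕ} {s : Finset ℕ} {i : ℕ} : 2 * i ∈ pad m s ↔ i ∈ s := by
  unfold pad
  rw [mem_union, mem_image, mem_image]
  constructor
  · rintro (⟨j, hj, hji⟩ | ⟨j, hj, hji⟩)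
    · rwa [show i = j by omega]
    · omega
  · intro hi
    exact Or.inl ⟨i, hi, rfl⟩

theorem pad_inj (m : ℕ) : Function.Injective (pad m) := by
  intro s t h
  ext i
  rw [← mem_pad_even (m := m), h, mem_pad_even]

theorem pad_inter {m : ℕ} {s t : Finset ℕ} (hst : s ≠ t) :
    pad m s ∩ pad m t = (s ∩ t).image (fun i => 2 * i) := by
  classical
  ext x
  rw [mem_inter, mem_image]
  constructor
  · rintro ⟨h1, h2⟩
    rcases mem_union.1 h1 with h1' | h1'
    · obtain ⟨i, hi, rfl⟩ := mem_image.1 h1'
      exact ⟨i, mem_inter.2 ⟨hi, mem_pad_even.1 h2⟩, rfl⟩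
    · obtain ⟨i, hi, rfl⟩ := mem_image.1 h1'
      exfalso
      rcases mem_union.1 h2 with h2' | h2'
      · obtain ⟨j, -, hj⟩ := mem_image.1 h2'
        omega
      · obtain ⟨j, -, hj⟩ := mem_image.1 h2'
        have h3 : Nat.pair (Encodable.encode t) j = Nat.pair (Encodable.encode s) i := by omega
        exact hst (Encodable.encode_injective (Nat.pair_eq_pair.1 h3).1).symm
  · rintro ⟨i, hi, rfl⟩
    obtain ⟨h1, h2⟩ := mem_inter.1 hi
    exact ⟨mem_pad_even.2 h1, mem_pad_even.2 h2⟩

theorem setFree_pad {r t k : ℕ} (htk : t ≤ k) {F : Finset (Finset ℕ)} (hF : SetFree r t F) :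
    SetFree r k (F.image (pad (k - t))) := by
  classical
  refine ⟨?_, ?_⟩
  · intro s' hs'
    obtain ⟨s, hs, rfl⟩ := mem_image.1 hs'
    rw [pad_card, hF.1 s hs]
    omega
  · rintro ⟨G, hG, hGr, K, hK⟩
    apply hF.2
    refine ⟨F.filter (fun s => pad (k - t) s ∈ G), filter_subset _ _, ?_,
      K.preimage (fun i => 2 * i) (Function.Injective.injOn fun i j (h : 2 * i = 2 * j) => by
        omega), ?_⟩
    · rw [← hGr, ← card_image_of_injective _ (pad_inj (k - t))]
      congr 1
      ext a
      constructor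
      · intro ha
        obtain ⟨s, hs, rfl⟩ := mem_image.1 ha
        exact (mem_filter.1 hs).2
      · intro ha
        obtain ⟨s, hs, rfl⟩ := mem_image.1 (hG ha)
        exact mem_image.2 ⟨s, mem_filter.2 ⟨hs, ha⟩, rfl⟩
    · intro s hs s' hs' hss
      have h1 := hK _ (mem_filter.1 hs).2 _ (mem_filter.1 hs').2
        fun h => hss (pad_inj (k - t) h)
      rw [pad_inter hss] at h1
      ext i
      rw [mem_preimage, ← h1, mem_image]
      constructor
      · intro hi
        exact ⟨i, hi, rfl⟩
      · rintro ⟨j, hj, hji⟩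
        rwa [show i = j by omega]

/-- For each `r` and `k` the two extremal problems differ by a factor at most `(k + 1) 2 ^ k`. -/
theorem transfer (r k : ℕ) (B : ℝ) :
    ((∀ A : Finset ℕ, GcdFree r k A → (A.card : ℝ) ≤ B) →
      ∀ F : Finset (Finset ℕ), SetFree r k F → (F.card : ℝ) ≤ B) ∧
    ((∀ F : Finset (Finset ℕ), SetFree r k F → (F.card : ℝ) ≤ B) →
      ∀ A : Finset ℕ, GcdFree r k A → (A.card : ℝ) ≤ (k + 1) * 2 ^ k * B) := by
  classical
  refine ⟨fun h F hF => ?_, fun h A hA => ?_⟩
  · have := h _ (gcdFree_image hF)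
    rwa [card_image_of_injective _ toInt_inj] at this
  · have h1 := card_le_of_sets hA (B := fun _ => B) (by
      intro t ht F hF
      have := h _ (setFree_pad ht hF)
      rwa [card_image_of_injective _ (pad_inj _)] at this)
    rw [sum_const, card_range, nsmul_eq_mul] at h1
    push_cast at h1
    linarith

/-- Q1 for `r` is the Erdős–Rado sunflower conjecture for `r`. -/
theorem equivalence (r : ℕ) :
    (∃ c : ℝ, 0 < c ∧ ∀ (k : ℕ) (A : Finset ℕ), GcdFree r k A → (A.card : ℝ) ≤ c ^ k) ↔
    (∃ c : ℝ, 0 < c ∧ ∀ (k : ℕ) (F : Finset (Finset ℕ)), SetFree r k F →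
      (F.card : ℝ) ≤ c ^ k) := by
  constructor
  · rintro ⟨c, hc, h⟩
    exact ⟨c, hc, fun k => (transfer r k (c ^ k)).1 (h k)⟩
  · rintro ⟨c, hc, h⟩
    refine ⟨4 * c, by linarith, fun k A hA => ?_⟩
    have h1 := (transfer r k (c ^ k)).2 (h k) A hA
    refine h1.trans ?_
    rw [mul_pow, show (4 : ℝ) = 2 * 2 by norm_num, mul_pow]
    have h2 : (k + 1 : ℝ) ≤ 2 ^ k := by
      have : k + 1 ≤ 2 ^ k := Nat.lt_two_pow_self
      exact_mod_cast this
    have h3 : (0 : ℝ) ≤ 2 ^ k * c ^ k := by positivity
    calc (k + 1 : ℝ) * 2 ^ k * c ^ k = (k + 1) * (2 ^ k * c ^ k) := by ring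
      _ ≤ 2 ^ k * (2 ^ k * c ^ k) := mul_le_mul_of_nonneg_right h2 h3
      _ = 2 ^ k * 2 ^ k * c ^ k := by ring

end Pool.Agent.Helper72.GcdSun
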