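import Mathlib

/-!
# The spread lemma by colourings
-/

namespace Pool.Agent.Helper72.GcdSun

open Finset
open scoped Classical

variable {X ι : Type} [Fintype X] [Fintype ι] {q m : ℕ}

/-- Points coloured `(a, 0), …, (a, s - 1)`. -/
noncomputable def Wl (a : Fin q) (c : X → Fin q × Fin m) (s : ℕ) : Finset X :=
  univ.filter fun x => (c x).1 = a ∧ ((c x).2 : ℕ) < s

/-- Points coloured `(a, s)`. -/
noncomputable def Ws (a : Fin q) (c : X → Fin q × Fin m) (s : ℕ) : Finset X :=
  univ.filter fun x => (c x).1 = a ∧ ((c x).2 : ℕ) = s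

def Alive (S : ι → Finset X) (a : Fin q) (c : X → Fin q × Fin m) (s l : ℕ) (i : ι) : Prop :=
  ∃ Y ⊆ S i, Y.card ≤ l ∧ ∃ j, S j ⊆ Wl a c s ∪ Y

theorem Wl_succ (a : Fin q) (c : X → Fin q × Fin m) (s : ℕ) :
    Wl a c (s + 1) = Wl a c s ∪ Ws a c s := by
  ext x
  simp only [Wl, Ws, mem_filter, mem_univ, true_and, mem_union, Nat.lt_succ_iff_lt_or_eq]
  tauto

theorem Wl_mono (a : Fin q) (c : X → Fin q × Fin m) {s t : ℕ} (h : s ≤ t) :
    Wl a c s ⊆ Wl a c t := by
  intro x hx
  simp only [Wl, mem_filter, mem_univ, true_and] at hx ⊢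
  exact ⟨hx.1, hx.2.trans_le h⟩

/-- Candidates: small sets completing some `S j`. -/
def Cand (S : ι → Finset X) (a : Fin q) (c : X → Fin q × Fin m) (s l : ℕ) (Y : Finset X) : Prop :=
  Y.card ≤ l ∧ Disjoint Y (Wl a c s) ∧ ∃ j, S j ⊆ Wl a c s ∪ Y

/-- A candidate inside the points of colour `(a, s)`, if there is one. -/
noncomputable def star (S : ι → Finset X) (a : Fin q) (s l : ℕ) (c : X → Fin q × Fin m) :
    Finset X :=
  if h : ∃ Y, Cand S a c s l Y ∧ Y ⊆ Ws a c s then h.choose else ∅

theorem star_card (S : ι → Finset X) (a : Fin q) (s l : ℕ) (c : X → Fin q × Fin m) :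
    (star S a s l c).card ≤ l := by
  unfold star
  split_ifs with h
  · exact h.choose_spec.1.1
  · simp

theorem card_agree (T : Finset X) (c' : X → Fin q × Fin m) :
    ((univ.filter fun c : X → Fin q × Fin m => ∀ x ∉ T, c x = c' x).card) ≤ (q * m) ^ T.card := by
  have h1 : (univ.filter fun c : X → Fin q × Fin m => ∀ x ∉ T, c x = c' x) ⊆
      Fintype.piFinset (fun x => if x ∈ T then univ else {c' x}) := by
    intro c hc
    rw [Fintype.mem_piFinset]
    intro x
    split_ifs with h
    · exact mem_univ _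
    · exact mem_singleton.2 ((mem_filter.1 hc).2 x h)
  refine (card_le_card h1).trans ?_
  rw [Fintype.card_piFinset]
  have h2 : ∀ x, (if x ∈ T then (univ : Finset (Fin q × Fin m)) else {c' x}).card =
      if x ∈ T then q * m else 1 := by
    intro x
    split_ifs
    · simp
    · simp
  rw [prod_congr rfl fun x _ => h2 x, prod_ite, prod_const, prod_const_one, mul_one]
  apply le_of_eq
  congr 2
  ext x
  simp

/-- The key covering: a pair which dies at stage `s`. -/
theorem cover (S : ι → Finset X) (a : Fin q) {s : ℕ} (hs : s < m) (l l' : ℕ)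
    (c : X → Fin q × Fin m) (i : ι) (h1 : Alive S a c s l i) (h2 : ¬ Alive S a c (s + 1) l' i) :
    ∃ c' : X → Fin q × Fin m, ∃ T : Finset X, T ⊆ star S a s l c' ∧ l' + 1 ≤ T.card ∧
      (∀ x ∉ T, c x = c' x) ∧ T ⊆ S i := by
  -- nonempty set of candidates
  obtain ⟨Y0, hY0, hY0c, j0, hj0⟩ := h1
  set C : Finset (Finset X) := univ.filter fun Y => Cand S a c s l Y ∧ Y ⊆ Ws a c s ∪ S i with hC
  have hne : C.Nonempty := by
    refine ⟨Y0 \ Wl a c s, mem_filter.2 ⟨mem_univ _, ⟨(card_le_card sdiff_subset).trans hY0c,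
      sdiff_disjoint, j0, ?_⟩, ?_⟩⟩
    · intro x hx
      rcases mem_union.1 (hj0 hx) with h | h
      · exact mem_union_left _ h
      · by_cases hxw : x ∈ Wl a c s
        · exact mem_union_left _ hxw
        · exact mem_union_right _ (mem_sdiff.2 ⟨h, hxw⟩)
    · exact (sdiff_subset.trans hY0).trans subset_union_right
  obtain ⟨Y, hY, hmin⟩ := exists_min_image C (fun Y => (Y \ Ws a c s).card) hne
  obtain ⟨-, ⟨hYc, hYd, j, hj⟩, hYsub⟩ := mem_filter.1 hY
  set T := Y \ Ws a c s with hT
  have hTS : T ⊆ S i := by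
    intro x hx
    obtain ⟨hx1, hx2⟩ := mem_sdiff.1 hx
    rcases mem_union.1 (hYsub hx1) with h | h
    · exact absurd h hx2
    · exact h
  have hTcard : l' + 1 ≤ T.card := by
    by_contra hlt
    apply h2
    refine ⟨T, hTS, by omega, j, ?_⟩
    intro x hx
    rw [Wl_succ]
    rcases mem_union.1 (hj hx) with h | h
    · exact mem_union_left _ (mem_union_left _ h)
    · by_cases hxw : x ∈ Ws a c s
      · exact mem_union_left _ (mem_union_right _ hxw)
      · exact mem_union_right _ (mem_sdiff.2 ⟨h, hxw⟩)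
  have hTd : Disjoint T (Wl a c s) := disjoint_of_subset_left sdiff_subset hYd
  set c' : X → Fin q × Fin m := fun x => if x ∈ T then (a, ⟨s, hs⟩) else c x with hc'
  have hWl : Wl a c' s = Wl a c s := by
    ext x
    simp only [Wl, mem_filter, mem_univ, true_and, hc']
    by_cases hx : x ∈ T
    · rw [if_pos hx]
      constructor
      · rintro ⟨-, h⟩
        exact absurd h (lt_irrefl _)
      · intro h
        exact absurd (mem_filter.2 ⟨mem_univ _, h⟩ : x ∈ Wl a c s)
          (disjoint_left.1 hTd hx)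
    · rw [if_neg hx]
  have hWs : Ws a c' s = Ws a c s ∪ T := by
    ext x
    simp only [Ws, mem_filter, mem_univ, true_and, hc', mem_union]
    by_cases hx : x ∈ T
    · simp [hx]
    · simp [hx]
  have hCand : ∀ Z, Cand S a c' s l Z ↔ Cand S a c s l Z := by
    intro Z
    unfold Cand
    rw [hWl]
  have hex : ∃ Z, Cand S a c' s l Z ∧ Z ⊆ Ws a c' s := by
    refine ⟨Y, (hCand Y).2 ⟨hYc, hYd, j, hj⟩, ?_⟩
    rw [hWs]
    intro x hx
    by_cases hxw : x ∈ Ws a c s
    · exact mem_union_left _ hxw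
    · exact mem_union_right _ (mem_sdiff.2 ⟨hx, hxw⟩)
  have hstar : star S a s l c' = hex.choose := by
    unfold star
    rw [dif_pos hex]
  obtain ⟨hs1, hs2⟩ := hex.choose_spec
  refine ⟨c', T, ?_, hTcard, fun x hx => by simp only [hc', if_neg hx], hTS⟩
  rw [hstar]
  set Z := hex.choose with hZ
  rw [hWs] at hs2
  have hZC : Z ∈ C := by
    refine mem_filter.2 ⟨mem_univ _, (hCand Z).1 hs1, hs2.trans ?_⟩
    exact union_subset_union_right hTS
  have h3 := hmin Z hZC
  have h4 : Z \ Ws a c s ⊆ T := by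
    intro x hx
    obtain ⟨hx1, hx2⟩ := mem_sdiff.1 hx
    rcases mem_union.1 (hs2 hx1) with h | h
    · exact absurd h hx2
    · exact h
  have h5 : Z \ Ws a c s = T := eq_of_subset_of_card_le h4 h3
  rw [← h5]
  exact sdiff_subset

/-- Number of pairs which die at stage `s`. -/
theorem step (S : ι → Finset X) (a : Fin q) {s : ℕ} (hs : s < m) (l l' : ℕ) (hl : l ≤ 2 * l' + 1)
    (N : ℝ) (hN : 0 ≤ N)
    (spread : ∀ T : Finset X, ((univ.filter fun i => T ⊆ S i).card : ℝ) *
      (16 * (q * m : ℕ) : ℝ) ^ T.card ≤ N) :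
    (((univ : Finset ((X → Fin q × Fin m) × ι)).filter fun ci =>
      Alive S a ci.1 s l ci.2 ∧ ¬ Alive S a ci.1 (s + 1) l' ci.2).card : ℝ) ≤
      ((q * m : ℕ) : ℝ) ^ Fintype.card X * N * (1 / 2 * (1 / 4) ^ (l' + 1)) := by
  set M : ℝ := ((q * m : ℕ) : ℝ) with hM
  have hq : 0 < q := a.pos
  have hM0 : 0 < M := by
    rw [hM]
    exact_mod_cast Nat.mul_pos hq (Nat.zero_lt_of_lt hs)
  have hsub : ((univ : Finset ((X → Fin q × Fin m) × ι)).filter fun ci =>
      Alive S a ci.1 s l ci.2 ∧ ¬ Alive S a ci.1 (s + 1) l' ci.2) ⊆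
      (univ : Finset (X → Fin q × Fin m)).biUnion fun c' =>
        ((star S a s l c').powerset.filter fun T => l' + 1 ≤ T.card).biUnion fun T =>
          (univ.filter fun c : X → Fin q × Fin m => ∀ x ∉ T, c x = c' x) ×ˢ
            (univ.filter fun i => T ⊆ S i) := by
    rintro ⟨c, i⟩ hci
    obtain ⟨-, h1, h2⟩ := mem_filter.1 hci
    obtain ⟨c', T, hT, hTc, hagree, hTS⟩ := cover S a hs l l' c i h1 h2
    rw [mem_biUnion]
    refine ⟨c', mem_univ _, ?_⟩
    rw [mem_biUnion]
    refine ⟨T, mem_filter.2 ⟨mem_powerset.2 hT, hTc⟩, ?_⟩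
    rw [mem_product]
    exact ⟨mem_filter.2 ⟨mem_univ _, hagree⟩, mem_filter.2 ⟨mem_univ _, hTS⟩⟩
  have hone : ∀ (c' : X → Fin q × Fin m) (T : Finset X), l' + 1 ≤ T.card →
      (((univ.filter fun c : X → Fin q × Fin m => ∀ x ∉ T, c x = c' x) ×ˢ
            (univ.filter fun i => T ⊆ S i)).card : ℝ) ≤ N * (1 / 16) ^ (l' + 1) := by
    intro c' T hT
    rw [card_product, Nat.cast_mul]
    have h1 : ((univ.filter fun c : X → Fin q × Fin m => ∀ x ∉ T, c x = c' x).card : ℝ) ≤
        M ^ T.card := by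
      have := card_agree T c'
      calc ((univ.filter fun c : X → Fin q × Fin m => ∀ x ∉ T, c x = c' x).card : ℝ)
          ≤ (((q * m) ^ T.card : ℕ) : ℝ) := by exact_mod_cast this
        _ = M ^ T.card := by rw [hM]; push_cast; ring
    have h2 := spread T
    have h3 : (16 * (q * m : ℕ) : ℝ) ^ T.card = 16 ^ T.card * M ^ T.card := by
      rw [mul_pow]
    rw [h3] at h2
    have h4 : M ^ T.card * ((univ.filter fun i => T ⊆ S i).card : ℝ) ≤ N * (1 / 16) ^ T.card := by
      have h5 : (0 : ℝ) < 16 ^ T.card := by positivity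
      rw [one_div, inv_pow, ← div_eq_mul_inv, le_div_iff₀ h5]
      linarith
    calc _ ≤ M ^ T.card * ((univ.filter fun i => T ⊆ S i).card : ℝ) :=
          mul_le_mul_of_nonneg_right h1 (Nat.cast_nonneg _)
      _ ≤ N * (1 / 16) ^ T.card := h4
      _ ≤ N * (1 / 16) ^ (l' + 1) := by
          apply mul_le_mul_of_nonneg_left _ hN
          exact pow_le_pow_of_le_one (by norm_num) (by norm_num) hT
  have hcard : (((univ : Finset ((X → Fin q × Fin m) × ι)).filter fun ci =>
      Alive S a ci.1 s l ci.2 ∧ ¬ Alive S a ci.1 (s + 1) l' ci.2).card : ℝ) ≤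
      ∑ c' : X → Fin q × Fin m,
        ∑ T ∈ ((star S a s l c').powerset.filter fun T => l' + 1 ≤ T.card),
          (((univ.filter fun c : X → Fin q × Fin m => ∀ x ∉ T, c x = c' x) ×ˢ
            (univ.filter fun i => T ⊆ S i)).card : ℝ) := by
    have h1 := (card_le_card hsub).trans (card_biUnion_le.trans
      (sum_le_sum fun c' _ => card_biUnion_le))
    exact_mod_cast h1
  refine hcard.trans ?_
  have hin : ∀ c' : X → Fin q × Fin m,
      ∑ T ∈ ((star S a s l c').powerset.filter fun T => l' + 1 ≤ T.card),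
          (((univ.filter fun c : X → Fin q × Fin m => ∀ x ∉ T, c x = c' x) ×ˢ
            (univ.filter fun i => T ⊆ S i)).card : ℝ) ≤ 2 ^ l * (N * (1 / 16) ^ (l' + 1)) := by
    intro c'
    have h1 : ∑ T ∈ ((star S a s l c').powerset.filter fun T => l' + 1 ≤ T.card),
          (((univ.filter fun c : X → Fin q × Fin m => ∀ x ∉ T, c x = c' x) ×ˢ
            (univ.filter fun i => T ⊆ S i)).card : ℝ) ≤
        ∑ T ∈ ((star S a s l c').powerset.filter fun T => l' + 1 ≤ T.card),
          N * (1 / 16) ^ (l' + 1) :=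
      sum_le_sum fun T hT => hone c' T (mem_filter.1 hT).2
    refine h1.trans ?_
    rw [sum_const, nsmul_eq_mul]
    apply mul_le_mul_of_nonneg_right _ (by positivity)
    have h2 : ((star S a s l c').powerset.filter fun T => l' + 1 ≤ T.card).card ≤ 2 ^ l := by
      refine (card_filter_le _ _).trans ?_
      rw [card_powerset]
      exact Nat.pow_le_pow_right (by norm_num) (star_card S a s l c')
    exact_mod_cast h2
  refine (sum_le_sum fun c' _ => hin c').trans ?_
  rw [sum_const, nsmul_eq_mul, card_univ, Fintype.card_fun]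
  have h6 : ((Fintype.card (Fin q × Fin m) ^ Fintype.card X : ℕ) : ℝ) = M ^ Fintype.card X := by
    rw [Fintype.card_prod, Fintype.card_fin, Fintype.card_fin, hM]
    push_cast
    ring
  rw [h6, mul_assoc]
  apply mul_le_mul_of_nonneg_left _ (by positivity)
  have h7 : (2 : ℝ) ^ l ≤ 2 ^ (2 * l' + 1) := pow_le_pow_right₀ (by norm_num) hl
  have h8 : (2 : ℝ) ^ (2 * l' + 1) * (1 / 16) ^ (l' + 1) = 1 / 2 * (1 / 4) ^ (l' + 1) := by
    rw [show 2 * l' + 1 = 2 * (l' + 1) - 1 by omega]
    have : (2 : ℝ) ^ (2 * (l' + 1) - 1) = 4 ^ (l' + 1) / 2 := by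
      rw [show 2 * (l' + 1) - 1 = 2 * l' + 1 by omega, pow_succ, pow_mul, pow_succ]
      norm_num
      ring
    rw [this, div_mul_eq_mul_div, ← mul_pow]
    norm_num
    ring
  calc (2 : ℝ) ^ l * (N * (1 / 16) ^ (l' + 1))
      ≤ 2 ^ (2 * l' + 1) * (N * (1 / 16) ^ (l' + 1)) :=
        mul_le_mul_of_nonneg_right h7 (by positivity)
    _ = N * (2 ^ (2 * l' + 1) * (1 / 16) ^ (l' + 1)) := by ring
    _ = N * (1 / 2 * (1 / 4) ^ (l' + 1)) := by rw [h8]

/-- Number of pairs which are alive at the beginning of stage `s` and dead at the end. -/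
theorem total (S : ι → Finset X) (a : Fin q) (N : ℝ) (hN : 0 ≤ N)
    (spread : ∀ T : Finset X, ((univ.filter fun i => T ⊆ S i).card : ℝ) *
      (16 * (q * m : ℕ) : ℝ) ^ T.card ≤ N) (l : ℕ) : ∀ s, s ≤ m → l < 2 ^ (m - s) →
    (((univ : Finset ((X → Fin q × Fin m) × ι)).filter fun ci =>
      Alive S a ci.1 s l ci.2 ∧ ¬ Alive S a ci.1 m 0 ci.2).card : ℝ) ≤
      ((q * m : ℕ) : ℝ) ^ Fintype.card X * N * (1 / 4 * (1 - (1 / 2) ^ l)) := by
  induction l using Nat.strong_induction_on with
  | _ l ih =>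
    intro s hs hl
    rcases Nat.eq_zero_or_pos l with rfl | hpos
    · have h0 : ((univ : Finset ((X → Fin q × Fin m) × ι)).filter fun ci =>
          Alive S a ci.1 s 0 ci.2 ∧ ¬ Alive S a ci.1 m 0 ci.2) = ∅ := by
        rw [filter_eq_empty_iff]
        rintro ⟨c, i⟩ - ⟨⟨Y, h1, h2, j, hj⟩, h3⟩
        apply h3
        exact ⟨Y, h1, h2, j, hj.trans (union_subset_union_left (Wl_mono a c hs))⟩
      rw [h0]
      simp
    · have hsm : s < m := by
        by_contra hh
        have : m - s = 0 := by omega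
        rw [this, pow_zero] at hl
        omega
      have h1 := step S a hsm l (l / 2) (by omega) N hN spread
      have hl2 : l / 2 < 2 ^ (m - (s + 1)) := by
        have : m - s = (m - (s + 1)) + 1 := by omega
        rw [this, pow_succ] at hl
        omega
      have h2 := ih (l / 2) (by omega) (s + 1) hsm hl2
      have hsub : ((univ : Finset ((X → Fin q × Fin m) × ι)).filter fun ci =>
          Alive S a ci.1 s l ci.2 ∧ ¬ Alive S a ci.1 m 0 ci.2) ⊆
          ((univ : Finset ((X → Fin q × Fin m) × ι)).filter fun ci =>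
            Alive S a ci.1 s l ci.2 ∧ ¬ Alive S a ci.1 (s + 1) (l / 2) ci.2) ∪
          ((univ : Finset ((X → Fin q × Fin m) × ι)).filter fun ci =>
            Alive S a ci.1 (s + 1) (l / 2) ci.2 ∧ ¬ Alive S a ci.1 m 0 ci.2) := by
        intro ci hci
        obtain ⟨-, h3, h4⟩ := mem_filter.1 hci
        rw [mem_union, mem_filter, mem_filter]
        by_cases h5 : Alive S a ci.1 (s + 1) (l / 2) ci.2
        · exact Or.inr ⟨mem_univ _, h5, h4⟩
        · exact Or.inl ⟨mem_univ _, h3, h5⟩
      have h3 : (((univ : Finset ((X → Fin q × Fin m) × ι)).filter fun ci =>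
          Alive S a ci.1 s l ci.2 ∧ ¬ Alive S a ci.1 m 0 ci.2).card : ℝ) ≤
          (((univ : Finset ((X → Fin q × Fin m) × ι)).filter fun ci =>
            Alive S a ci.1 s l ci.2 ∧ ¬ Alive S a ci.1 (s + 1) (l / 2) ci.2).card : ℝ) +
          (((univ : Finset ((X → Fin q × Fin m) × ι)).filter fun ci =>
            Alive S a ci.1 (s + 1) (l / 2) ci.2 ∧ ¬ Alive S a ci.1 m 0 ci.2).card : ℝ) := by
        exact_mod_cast (card_le_card hsub).trans (card_union_le _ _)
      refine h3.trans ((add_le_add h1 h2).trans ?_)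
      rw [← mul_add]
      apply mul_le_mul_of_nonneg_left _ (by positivity)
      -- numerical inequality
      set t := l / 2 with ht
      have h6 : (1 / 2 : ℝ) ^ l ≤ (1 / 2) ^ (2 * t) :=
        pow_le_pow_of_le_one (by norm_num) (by norm_num) (by omega)
      rcases Nat.eq_zero_or_pos t with h0 | htp
      · have hl1 : l = 1 := by omega
        rw [h0, hl1]
        norm_num
      · have h7 : (1 / 2 : ℝ) ^ (2 * t) = (1 / 2) ^ t * (1 / 2) ^ t := by
          rw [two_mul, pow_add]
        have h8 : (1 / 4 : ℝ) ^ (t + 1) = 1 / 4 * ((1 / 2) ^ t * (1 / 2) ^ t) := by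
          rw [pow_succ, show (1 / 4 : ℝ) = 1 / 2 * (1 / 2) by norm_num, mul_pow]
          ring
        have h9 : (1 / 2 : ℝ) ^ t ≤ 1 / 2 := by
          calc (1 / 2 : ℝ) ^ t ≤ (1 / 2) ^ 1 :=
                pow_le_pow_of_le_one (by norm_num) (by norm_num) htp
            _ = 1 / 2 := pow_one _
        have h10 : (0 : ℝ) ≤ (1 / 2) ^ t := by positivity
        rw [h8]
        rw [h7] at h6
        nlinarith

/-- **Spread lemma.** -/
theorem spread_lemma (S : ι → Finset X) {k r : ℕ} (hk : ∀ i, (S i).card ≤ k) (hkm : k < 2 ^ m)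
    (hι : 0 < Fintype.card ι) (hr : 1 ≤ r)
    (spread : ∀ T : Finset X, ((univ.filter fun i => T ⊆ S i).card : ℝ) *
      (32 * r * m : ℝ) ^ T.card ≤ Fintype.card ι) :
    ∃ f : Fin r → ι, ∀ a b, a ≠ b → Disjoint (S (f a)) (S (f b)) := by
  rcases Nat.eq_zero_or_pos m with hm0 | hmpos
  · -- all sets are empty
    subst hm0
    have hk0 : k = 0 := by simpa using hkm
    have hemp : ∀ i, S i = ∅ := fun i => card_eq_zero.1 (Nat.le_zero.1 (hk0 ▸ hk i))
    obtain ⟨i0⟩ := Fintype.card_pos_iff.1 hι
    exact ⟨fun _ => i0, fun a b _ => by rw [hemp]; exact disjoint_empty_left _⟩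
  · set q := 2 * r with hq
    have hspread : ∀ T : Finset X, ((univ.filter fun i => T ⊆ S i).card : ℝ) *
        (16 * (q * m : ℕ) : ℝ) ^ T.card ≤ (Fintype.card ι : ℝ) := by
      intro T
      have := spread T
      rwa [show (16 * (q * m : ℕ) : ℝ) = 32 * r * m by rw [hq]; push_cast; ring]
    set M : ℝ := ((q * m : ℕ) : ℝ) with hM
    have hMpos : 0 < M := by
      rw [hM]; exact_mod_cast Nat.mul_pos (by omega) hmpos
    -- bad colourings for the class `a`
    set bad : Fin q → (X → Fin q × Fin m) → Prop :=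
      fun a c => ¬ ∃ j, S j ⊆ Wl a c m with hbad
    have hb : ∀ a : Fin q, ((univ.filter fun c => bad a c).card : ℝ) ≤
        M ^ Fintype.card X * (1 / 4) := by
      intro a
      have h1 := total S a (Fintype.card ι : ℝ) (Nat.cast_nonneg _) hspread k 0 (Nat.zero_le _)
        (by simpa using hkm)
      have h2 : (univ.filter fun c => bad a c) ×ˢ (univ : Finset ι) ⊆
          ((univ : Finset ((X → Fin q × Fin m) × ι)).filter fun ci =>
            Alive S a ci.1 0 k ci.2 ∧ ¬ Alive S a ci.1 m 0 ci.2) := by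
        rintro ⟨c, i⟩ hci
        rw [mem_product] at hci
        refine mem_filter.2 ⟨mem_univ _, ⟨S i, subset_rfl, hk i, i, subset_union_right⟩, ?_⟩
        rintro ⟨Y, -, hY, j, hj⟩
        apply (mem_filter.1 hci.1).2
        rw [card_eq_zero.1 (Nat.le_zero.1 hY), union_empty] at hj
        exact ⟨j, hj⟩
      have h3 : ((univ.filter fun c => bad a c).card : ℝ) * Fintype.card ι ≤
          M ^ Fintype.card X * Fintype.card ι * (1 / 4 * (1 - (1 / 2) ^ k)) := by
        refine le_trans ?_ h1
        have := card_le_card h2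
        rw [card_product, card_univ] at this
        exact_mod_cast this
      have h4 : (0 : ℝ) < Fintype.card ι := by exact_mod_cast hι
      have h5 : (0 : ℝ) ≤ (1 / 2) ^ k := by positivity
      have h6 : ((univ.filter fun c => bad a c).card : ℝ) * Fintype.card ι ≤
          (M ^ Fintype.card X * (1 / 4)) * Fintype.card ι := by
        refine h3.trans ?_
        have h7 : (0 : ℝ) ≤ M ^ Fintype.card X * Fintype.card ι := by positivity
        nlinarith
      exact le_of_mul_le_mul_right h6 h4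
    -- a colouring with few bad classes
    have hex : ∃ c : X → Fin q × Fin m, (univ.filter fun a => bad a c).card ≤ r := by
      by_contra hall
      push Not at hall
      have h1 : ∑ c : X → Fin q × Fin m, ((univ.filter fun a => bad a c).card : ℝ) =
          ∑ a : Fin q, ((univ.filter fun c => bad a c).card : ℝ) := by
        simp only [card_filter, Nat.cast_sum]
        exact sum_comm
      have h2 : ∑ a : Fin q, ((univ.filter fun c => bad a c).card : ℝ) ≤
          q * (M ^ Fintype.card X * (1 / 4)) := by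
        refine (sum_le_sum fun a _ => hb a).trans ?_
        rw [sum_const, nsmul_eq_mul, card_univ, Fintype.card_fin]
      have h3 : M ^ Fintype.card X * r < ∑ c : X → Fin q × Fin m,
          ((univ.filter fun a => bad a c).card : ℝ) := by
        have h4 : M ^ Fintype.card X * r = ∑ _c : X → Fin q × Fin m, (r : ℝ) := by
          rw [sum_const, nsmul_eq_mul, card_univ, Fintype.card_fun, Fintype.card_prod,
            Fintype.card_fin, Fintype.card_fin, hM]
          push_cast
          ring
        rw [h4]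
        have hne : (univ : Finset (X → Fin q × Fin m)).Nonempty :=
          ⟨fun _ => (⟨0, by omega⟩, ⟨0, hmpos⟩), mem_univ _⟩
        exact sum_lt_sum_of_nonempty hne fun c _ => by exact_mod_cast hall c
      rw [h1] at h3
      have h5 : (q : ℝ) = 2 * r := by rw [hq]; push_cast; ring
      rw [h5] at h2
      have h6 : 0 < M ^ Fintype.card X * r := by
        have : (0 : ℝ) < r := by exact_mod_cast hr
        positivity
      nlinarith
    obtain ⟨c, hc⟩ := hex
    -- good classes
    have hgood : r ≤ (univ.filter fun a => ¬ bad a c).card := by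
      have h1 := card_filter_add_card_filter_not (s := (univ : Finset (Fin q))) (fun a => bad a c)
      rw [card_univ, Fintype.card_fin] at h1
      omega
    obtain ⟨g, hg⟩ : ∃ g : Fin r → Fin q, Function.Injective g ∧ ∀ t, ¬ bad (g t) c := by
      obtain ⟨G, hGsub, hGcard⟩ := exists_subset_card_eq hgood
      refine ⟨fun t => (G.equivFinOfCardEq hGcard).symm t, ?_, ?_⟩
      · intro x y hxy
        exact (G.equivFinOfCardEq hGcard).symm.injective (Subtype.ext hxy)
      · intro t
        exact (mem_filter.1 (hGsub ((G.equivFinOfCardEq hGcard).symm t).2)).2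
    have hj : ∀ t : Fin r, ∃ j, S j ⊆ Wl (g t) c m := by
      intro t
      have := hg.2 t
      simp only [hbad, not_not] at this
      exact this
    choose f hf using hj
    refine ⟨f, fun x y hxy => ?_⟩
    rw [disjoint_left]
    intro z hz1 hz2
    have h1 := (mem_filter.1 (hf x hz1)).2.1
    have h2 := (mem_filter.1 (hf y hz2)).2.1
    exact hxy (hg.1 (h1.symm.trans h2))

end Pool.Agent.Helper72.GcdSun
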